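import Pool.Agent.V8H94.TV.Defs

/-!
# The intersection pairing is perfect if the cycle classes are injective and the strong Tate
conjecture holds
-/

set_option autoImplicit false

namespace Pool.Agent.V8H94.CW

open Module Polynomial Pool.Agent.V8H94.TV

variable {K : Type} [Field K] {E : Type} [AddCommGroup E] [Module K E]

theorem aeval_sub (G : E →ₗ[K] E) (c : K) :
    aeval G (X - Polynomial.C c) = (G - c • LinearMap.id : E →ₗ[K] E) := by
  rw [map_sub, aeval_X, aeval_C]
  rfl

theorem isGen_pow {G : E →ₗ[K] E} {c : K} {x : E} (h : IsGen G c x) (t : ℕ) :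
    IsGen (G ^ t) (c ^ t) x := by
  obtain ⟨k, hk⟩ := h
  refine ⟨k, ?_⟩
  obtain ⟨P, hP⟩ := sub_dvd_pow_sub_pow (X : K[X]) (Polynomial.C c) t
  have h1 : (G ^ t - c ^ t • LinearMap.id : E →ₗ[K] E) =
      aeval G P * (G - c • LinearMap.id : E →ₗ[K] E) := by
    rw [← aeval_sub G c, ← map_mul, mul_comm, ← hP, ← Polynomial.C_pow, map_sub, map_pow, aeval_X,
      aeval_C]
    rfl
  have hc : Commute (aeval G P) (G - c • LinearMap.id : E →ₗ[K] E) := by
    rw [← aeval_sub G c]
    exact (Commute.all P (X - Polynomial.C c)).map (aeval G)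
  rw [h1, hc.mul_pow, Module.End.mul_apply, hk, map_zero]

/-- Elements of a finite-dimensional subspace of generalised eigenvectors of powers of `F` are
generalised eigenvectors of one power of `F`. -/
theorem exists_gen [FiniteDimensional K E] {F : E →ₗ[K] E} {q : K} {n : ℕ} (A : Submodule K E)
    (hA : ∀ x ∈ A, ∃ s : ℕ, 0 < s ∧ IsGen (F ^ s) (q ^ (n * s)) x) :
    ∃ s : ℕ, 0 < s ∧ ∃ k : ℕ, ∀ x ∈ A, ((F ^ s - q ^ (n * s) • LinearMap.id : E →ₗ[K] E) ^ k) x = 0 := by
  classical
  have key : ∀ S : Finset E, (∀ x ∈ S, x ∈ A) → ∃ s : ℕ, 0 < s ∧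
      ∀ x ∈ S, IsGen (F ^ s) (q ^ (n * s)) x := by
    intro S
    induction S using Finset.induction_on with
    | empty => exact fun _ => ⟨1, one_pos, by simp⟩
    | insert a S _ ih =>
      intro h
      obtain ⟨s, hs, h2⟩ := ih fun x hx => h x (Finset.mem_insert_of_mem hx)
      obtain ⟨t, ht, h3⟩ := hA a (h a (Finset.mem_insert_self _ _))
      refine ⟨s * t, Nat.mul_pos hs ht, fun x hx => ?_⟩
      rcases Finset.mem_insert.1 hx with rfl | hx
      · have := isGen_pow h3 s
        rw [← pow_mul, ← pow_mul] at this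
        rwa [mul_comm s t, ← mul_assoc]
      · have := isGen_pow (h2 x hx) t
        rw [← pow_mul, ← pow_mul] at this
        rwa [← mul_assoc]
  obtain ⟨S, hS⟩ := IsNoetherian.noetherian A
  obtain ⟨s, hs, h⟩ := key S fun x hx => by rw [← hS]; exact Submodule.subset_span hx
  have key2 : ∀ S : Finset E, (∀ x ∈ S, IsGen (F ^ s) (q ^ (n * s)) x) → ∃ k : ℕ,
      ∀ x ∈ S, ((F ^ s - q ^ (n * s) • LinearMap.id : E →ₗ[K] E) ^ k) x = 0 := by
    intro S
    induction S using Finset.induction_on with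
    | empty => exact fun _ => ⟨0, by simp⟩
    | insert a S _ ih =>
      intro h
      obtain ⟨k, h2⟩ := ih fun x hx => h x (Finset.mem_insert_of_mem hx)
      obtain ⟨l, h3⟩ := h a (Finset.mem_insert_self _ _)
      refine ⟨k + l, fun x hx => ?_⟩
      rcases Finset.mem_insert.1 hx with rfl | hx
      · rw [pow_add, Module.End.mul_apply, h3, map_zero]
      · rw [add_comm, pow_add, Module.End.mul_apply, h2 x hx, map_zero]
  obtain ⟨k, hk⟩ := key2 S h
  refine ⟨s, hs, k, fun x hx => ?_⟩
  have h2 : A ≤ LinearMap.ker ((F ^ s - q ^ (n * s) • LinearMap.id : E →ₗ[K] E) ^ k) := by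
    rw [← hS, Submodule.span_le]
    intro y hy
    exact LinearMap.mem_ker.2 (hk y hy)
  exact LinearMap.mem_ker.1 (h2 hx)

/-- Generalised eigenspaces for `c` and `c'` are dual to each other if `B` multiplies by `c c'`. -/
theorem pair_zero [FiniteDimensional K E] {G : E →ₗ[K] E} {c c' : K} (hc : c * c' ≠ 0)
    {B : E →ₗ[K] E →ₗ[K] K} (left : ∀ x, (∀ y, B x y = 0) → x = 0)
    (heq : ∀ x y, B (G x) (G y) = c * c' * B x y) (m : ℕ) (x : E)
    (hx : ((G - c • LinearMap.id : E →ₗ[K] E) ^ m) x = 0) (y : E) :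
    B x (((G - c' • LinearMap.id : E →ₗ[K] E) ^ m) y) = 0 := by
  have hG : Function.Injective G := by
    rw [injective_iff_map_eq_zero]
    intro z hz
    refine left z fun w => ?_
    have h1 := heq z w
    rw [hz, map_zero, LinearMap.zero_apply] at h1
    exact (mul_eq_zero.1 h1.symm).resolve_left hc
  have hG' : Function.Surjective G := LinearMap.injective_iff_surjective.1 hG
  induction m generalizing x with
  | zero =>
    rw [pow_zero, Module.End.one_apply] at hx
    rw [hx, map_zero, LinearMap.zero_apply]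
  | succ m ih =>
    obtain ⟨x', rfl⟩ := hG' x
    have hcom : Commute ((G - c • LinearMap.id : E →ₗ[K] E) ^ (m + 1)) G := by
      refine Commute.pow_left ?_ _
      refine LinearMap.ext fun z => ?_
      simp [Module.End.mul_apply]
    have h1 : ((G - c • LinearMap.id : E →ₗ[K] E) ^ (m + 1)) x' = 0 := by
      apply hG
      rw [map_zero]
      have h2 := congrArg (fun T : Module.End K E => T x') hcom.eq
      simp only [Module.End.mul_apply] at h2
      rw [← h2, hx]
    have h2 := ih ((G - c • LinearMap.id : E →ₗ[K] E) x') (by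
      rw [← Module.End.mul_apply, ← pow_succ]; exact h1)
    rw [pow_succ', Module.End.mul_apply]
    set w := ((G - c' • LinearMap.id : E →ₗ[K] E) ^ m) y with hw
    rw [LinearMap.sub_apply, map_sub, heq, LinearMap.smul_apply, LinearMap.id_apply, map_smul,
      smul_eq_mul]
    rw [LinearMap.sub_apply, map_sub, LinearMap.sub_apply, LinearMap.smul_apply,
      LinearMap.id_apply, map_smul, LinearMap.smul_apply, smul_eq_mul] at h2
    linear_combination (-c') * h2

/-- The same with the arguments exchanged. -/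
theorem exists_split [FiniteDimensional K E] (G : E →ₗ[K] E) (c : K) (m : ℕ) (y : E) :
    ∃ a b, IsGen G c a ∧ y = a + ((G - c • LinearMap.id : E →ₗ[K] E) ^ m) b := by
  obtain ⟨k, hk, h1⟩ := ((LinearMap.eventually_isCompl_ker_pow_range_pow
    (G - c • LinearMap.id : E →ₗ[K] E)).and (Filter.eventually_ge_atTop m)).exists
  have hx : y ∈ LinearMap.ker ((G - c • LinearMap.id : E →ₗ[K] E) ^ k) ⊔
      LinearMap.range ((G - c • LinearMap.id : E →ₗ[K] E) ^ k) := by
    rw [hk.sup_eq_top]; exact Submodule.mem_top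
  obtain ⟨a, ha, z, ⟨b, rfl⟩, rfl⟩ := Submodule.mem_sup.1 hx
  refine ⟨a, ((G - c • LinearMap.id : E →ₗ[K] E) ^ (k - m)) b, ⟨k, ha⟩, ?_⟩
  rw [← Module.End.mul_apply, ← pow_add, Nat.add_sub_cancel' h1]

/-- **The intersection pairing is perfect** if the cycle classes are injective in codimensions `n` and
`d - n` and their images are the generalised Tate classes. -/
theorem perfect_of_gen [FiniteDimensional K E] {F : E →ₗ[K] E} {q : K} (hq : q ≠ 0) {d n : ℕ}
    (hn : n ≤ d) {M : ℕ → Type} [∀ n, AddCommGroup (M n)] [∀ n, Module K (M n)]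
    (cl : ∀ n, M n →ₗ[K] E) (deg : ∀ n, M n →ₗ[K] M (d - n) →ₗ[K] K) (B : E →ₗ[K] E →ₗ[K] K)
    (hdeg : ∀ a b, deg n a b = B (cl n a) (cl (d - n) b))
    (left : ∀ x, (∀ y, B x y = 0) → x = 0) (right : ∀ y, (∀ x, B x y = 0) → y = 0)
    (heq : ∀ x y, B (F x) (F y) = q ^ d * B x y)
    (inj : ∀ k, k = n ∨ k = d - n → Function.Injective (cl k))
    (hr : ∀ k, k = n ∨ k = d - n → ∀ x,
      x ∈ LinearMap.range (cl k) ↔ ∃ s : ℕ, 0 < s ∧ IsGen (F ^ s) (q ^ (k * s)) x) :
    FiniteDimensional K (M n) ∧ FiniteDimensional K (M (d - n)) ∧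
      Function.Bijective (deg n) := by
  have i1 := inj n (Or.inl rfl)
  have i2 := inj (d - n) (Or.inr rfl)
  have f1 : FiniteDimensional K (M n) := FiniteDimensional.of_injective (cl n) i1
  have f2 : FiniteDimensional K (M (d - n)) := FiniteDimensional.of_injective (cl (d - n)) i2
  obtain ⟨s₁, hs₁, k₁, h₁⟩ := exists_gen (LinearMap.range (cl n)) fun x hx =>
    (hr n (Or.inl rfl) x).1 hx
  obtain ⟨s₂, hs₂, k₂, h₂⟩ := exists_gen (LinearMap.range (cl (d - n))) fun x hx =>
    (hr (d - n) (Or.inr rfl) x).1 hx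
  have heqs : ∀ s x y, B ((F ^ s) x) ((F ^ s) y) = q ^ (n * s) * q ^ ((d - n) * s) * B x y := by
    intro s x y
    rw [← pow_add, ← add_mul, Nat.add_sub_cancel' hn]
    induction s generalizing x y with
    | zero => simp
    | succ s ih =>
      rw [pow_succ, Module.End.mul_apply, Module.End.mul_apply, ih, heq, ← mul_assoc, ← pow_add]
      rfl
  have hne : ∀ s, q ^ (n * s) * q ^ ((d - n) * s) ≠ 0 := fun s =>
    mul_ne_zero (pow_ne_zero _ hq) (pow_ne_zero _ hq)
  have hne' : ∀ s, q ^ ((d - n) * s) * q ^ (n * s) ≠ 0 := fun s =>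
    mul_ne_zero (pow_ne_zero _ hq) (pow_ne_zero _ hq)
  -- the pairing of the classes is non-degenerate
  have hnd1 : ∀ a : M n, (∀ b, deg n a b = 0) → a = 0 := by
    intro a ha
    apply i1
    rw [map_zero]
    refine left _ fun y => ?_
    obtain ⟨u, v, hu, rfl⟩ := exists_split (F ^ s₁) (q ^ ((d - n) * s₁)) k₁ y
    obtain ⟨b, rfl⟩ := (hr (d - n) (Or.inr rfl) u).2 ⟨s₁, hs₁, hu⟩
    rw [map_add, ← hdeg, ha, zero_add]
    exact pair_zero (hne s₁) left (heqs s₁) k₁ _ (h₁ _ ⟨a, rfl⟩) v
  have hnd2 : ∀ b : M (d - n), (∀ a, deg n a b = 0) → b = 0 := by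
    intro b hb
    apply i2
    rw [map_zero]
    refine right _ fun y => ?_
    obtain ⟨u, v, hu, rfl⟩ := exists_split (F ^ s₂) (q ^ (n * s₂)) k₂ y
    obtain ⟨a, rfl⟩ := (hr n (Or.inl rfl) u).2 ⟨s₂, hs₂, hu⟩
    rw [map_add, LinearMap.add_apply, ← hdeg, hb, zero_add]
    have := pair_zero (B := B.flip) (hne' s₂) (fun x h => right x fun y => h y)
      (fun x y => by
        rw [LinearMap.flip_apply, LinearMap.flip_apply, heqs]; ring) k₂ _ (h₂ _ ⟨b, rfl⟩) v
    rwa [LinearMap.flip_apply] at this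
  have hinj : Function.Injective (deg n) := by
    rw [injective_iff_map_eq_zero]
    intro a ha
    exact hnd1 a fun b => by rw [ha, LinearMap.zero_apply]
  have hinj' : Function.Injective (deg n).flip := by
    rw [injective_iff_map_eq_zero]
    intro b hb
    exact hnd2 b fun a => by rw [← LinearMap.flip_apply, hb, LinearMap.zero_apply]
  refine ⟨f1, f2, hinj, ?_⟩
  have e1 : finrank K (M n) ≤ finrank K (M (d - n) →ₗ[K] K) :=
    LinearMap.finrank_le_finrank_of_injective hinj
  have e2 : finrank K (M (d - n)) ≤ finrank K (M n →ₗ[K] K) :=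
    LinearMap.finrank_le_finrank_of_injective hinj'
  have e3 : finrank K (M (d - n) →ₗ[K] K) = finrank K (M (d - n)) := Subspace.dual_finrank_eq
  have e4 : finrank K (M n →ₗ[K] K) = finrank K (M n) := Subspace.dual_finrank_eq
  exact (LinearMap.injective_iff_surjective_of_finrank_eq_finrank (by omega)).1 hinj

end Pool.Agent.V8H94.CW
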