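import Pool.Agent.V8H94.CW.Defs

/-!
# Rational and numerical equivalence agree if the strong Tate conjecture holds and the motive is
finite-dimensional (Soulé, Geisser, Kahn)
-/

set_option autoImplicit false

namespace Pool.Agent.V8H94.CW

open Module Polynomial Pool.Agent.V8H94.TV

variable {K : Type} [Field K] {E : Type} [AddCommGroup E] [Module K E] {F : E →ₗ[K] E}
  {q : K} {d : ℕ}

theorem pow_eigen {V : Type} [AddCommGroup V] [Module K V] {T : V →ₗ[K] V} {c : K} {x : V}
    (h : T x = c • x) (t : ℕ) : (T ^ t) x = c ^ t • x := by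
  induction t with
  | zero => simp
  | succ t ih => rw [pow_succ, Module.End.mul_apply, h, map_smul, ih, smul_smul, pow_succ, mul_comm]

theorem pow_mul_eigen {V : Type} [AddCommGroup V] [Module K V] {T : V →ₗ[K] V} {n s : ℕ}
    {x : V} (h : (T ^ s) x = q ^ (n * s) • x) (t : ℕ) : (T ^ (s * t)) x = q ^ (n * (s * t)) • x := by
  rw [pow_mul, pow_eigen h, ← pow_mul, mul_assoc]

theorem frob_cl {C : Chow K E F q d} (hC : IsChow C) (n : ℕ) (α : C.M n) :
    ∃ s : ℕ, 0 < s ∧ (F ^ s) (C.cl n α) = q ^ (n * s) • C.cl n α := by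
  obtain ⟨s, hs, h⟩ := hC.act_fr n α
  refine ⟨s, hs, ?_⟩
  rw [← map_smul, ← h, ← hC.real_cl, map_pow, hC.real_fr]

/-- Frobenius of a suitable finite extension acts on all algebraic classes by `q ^ n`. -/
theorem exists_uniform [FiniteDimensional K E] {C : Chow K E F q d} (hC : IsChow C) (n : ℕ) :
    ∃ s : ℕ, 0 < s ∧ ∀ x ∈ LinearMap.range (C.cl n), (F ^ s) x = q ^ (n * s) • x := by
  classical
  obtain ⟨S, hS⟩ := (IsNoetherian.noetherian (LinearMap.range (C.cl n)))
  have h1 : ∀ S : Finset E, (∀ x ∈ S, x ∈ LinearMap.range (C.cl n)) →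
      ∃ s : ℕ, 0 < s ∧ ∀ x ∈ S, (F ^ s) x = q ^ (n * s) • x := by
    intro S
    induction S using Finset.induction_on with
    | empty => exact fun _ => ⟨1, one_pos, by simp⟩
    | insert a S _ ih =>
      intro h
      obtain ⟨s, hs, h2⟩ := ih fun x hx => h x (Finset.mem_insert_of_mem hx)
      obtain ⟨α, hα⟩ := h a (Finset.mem_insert_self _ _)
      obtain ⟨t, ht, h3⟩ := frob_cl hC n α
      rw [hα] at h3
      refine ⟨s * t, Nat.mul_pos hs ht, fun x hx => ?_⟩
      rcases Finset.mem_insert.1 hx with rfl | hx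
      · rw [mul_comm]; exact pow_mul_eigen h3 s
      · exact pow_mul_eigen (h2 x hx) t
  obtain ⟨s, hs, h⟩ := h1 S fun x hx => by rw [← hS]; exact Submodule.subset_span hx
  refine ⟨s, hs, fun x hx => ?_⟩
  have h2 : LinearMap.range (C.cl n) ≤ Module.End.eigenspace (F ^ s) (q ^ (n * s)) := by
    rw [← hS, Submodule.span_le]
    intro y hy
    exact Module.End.mem_eigenspace_iff.2 (h y hy)
  exact Module.End.mem_eigenspace_iff.1 (h2 hx)

theorem equivariant_pow {C : Chow K E F q d} (hC : IsChow C) (s : ℕ) (x y : E) :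
    C.B ((F ^ s) x) ((F ^ s) y) = q ^ (d * s) * C.B x y := by
  induction s generalizing x y with
  | zero => simp
  | succ s ih =>
    rw [pow_succ, Module.End.mul_apply, Module.End.mul_apply, ih, hC.equivariant, ← mul_assoc,
      ← pow_add]
    rfl

/-- The generalised eigenspace is an eigenspace and has the image of `G - c` as a complement. -/
theorem exists_decomp [FiniteDimensional K E] (G : E →ₗ[K] E) (c : K) (A : Submodule K E)
    (hA : ∀ x, IsGen G c x → x ∈ A) (x : E) : ∃ a ∈ A, ∃ b, x = a + (G - c • LinearMap.id : E →ₗ[K] E) b := by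
  obtain ⟨k, hk, h1⟩ := ((LinearMap.eventually_isCompl_ker_pow_range_pow
    (G - c • LinearMap.id : E →ₗ[K] E)).and (Filter.eventually_ge_atTop 1)).exists
  have hx : x ∈ LinearMap.ker ((G - c • LinearMap.id : E →ₗ[K] E) ^ k) ⊔
      LinearMap.range ((G - c • LinearMap.id : E →ₗ[K] E) ^ k) := by
    rw [hk.sup_eq_top]; exact Submodule.mem_top
  obtain ⟨a, ha, y, ⟨b, rfl⟩, rfl⟩ := Submodule.mem_sup.1 hx
  refine ⟨a, hA a ⟨k, ha⟩, ((G - c • LinearMap.id : E →ₗ[K] E) ^ (k - 1)) b, ?_⟩
  congr 1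
  obtain ⟨l, rfl⟩ := Nat.exists_eq_add_of_le' h1
  rw [pow_succ', Module.End.mul_apply]
  rfl

/-- A dual family for a non-degenerate pairing. -/
theorem exists_dual [FiniteDimensional K E] (B : E →ₗ[K] E →ₗ[K] K) (A A' : Submodule K E)
    (h1 : ∀ x ∈ A, (∀ y ∈ A', B x y = 0) → x = 0) (h2 : ∀ y ∈ A', (∀ x ∈ A, B x y = 0) → y = 0)
    (f : A →ₗ[K] K) : ∃ y ∈ A', ∀ x (hx : x ∈ A), B x y = f ⟨x, hx⟩ := by
  let T : A' →ₗ[K] Dual K A := (B.flip.domRestrict₁₂ A' A)
  let T' : A →ₗ[K] Dual K A' := (B.domRestrict₁₂ A A')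
  have hT : Function.Injective T := by
    rw [injective_iff_map_eq_zero]
    intro y hy
    apply Subtype.ext
    exact h2 y y.2 fun x hx => LinearMap.congr_fun hy ⟨x, hx⟩
  have hT' : Function.Injective T' := by
    rw [injective_iff_map_eq_zero]
    intro x hx
    apply Subtype.ext
    exact h1 x x.2 fun y hy => LinearMap.congr_fun hx ⟨y, hy⟩
  have e1 := LinearMap.finrank_le_finrank_of_injective hT
  have e2 := LinearMap.finrank_le_finrank_of_injective hT'
  rw [Subspace.dual_finrank_eq] at e1 e2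
  have e3 : finrank K A' = finrank K (Dual K A) := by
    rw [Subspace.dual_finrank_eq]; omega
  obtain ⟨y, hy⟩ := (LinearMap.injective_iff_surjective_of_finrank_eq_finrank e3).1 hT f
  exact ⟨y, y.2, fun x hx => LinearMap.congr_fun hy ⟨x, hx⟩⟩

/-- A finite extension over which all algebraic classes in two codimensions and one cycle are
defined. -/
theorem exists_level [FiniteDimensional K E] {C : Chow K E F q d} (hC : IsChow C) (n n' : ℕ)
    {V : Type} [AddCommGroup V] [Module K V] (T : V →ₗ[K] V) (α : V)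
    (hα : ∃ s : ℕ, 0 < s ∧ (T ^ s) α = q ^ (n * s) • α) : ∃ s : ℕ, 0 < s ∧
      (∀ x ∈ LinearMap.range (C.cl n), (F ^ s) x = q ^ (n * s) • x) ∧
      (∀ x ∈ LinearMap.range (C.cl n'), (F ^ s) x = q ^ (n' * s) • x) ∧
      (T ^ s) α = q ^ (n * s) • α := by
  obtain ⟨s₁, hs₁, hu₁⟩ := exists_uniform hC n
  obtain ⟨s₂, hs₂, hu₂⟩ := exists_uniform hC n'
  obtain ⟨u, hu, h1⟩ := hα
  refine ⟨s₁ * s₂ * u, Nat.mul_pos (Nat.mul_pos hs₁ hs₂) hu, fun x hx => ?_, fun x hx => ?_, ?_⟩
  · have := pow_mul_eigen (hu₁ x hx) (s₂ * u)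
    rwa [← mul_assoc] at this
  · have := pow_mul_eigen (hu₂ x hx) (s₁ * u)
    rwa [show s₂ * (s₁ * u) = s₁ * s₂ * u by ring] at this
  · have h2 := pow_mul_eigen h1 (s₁ * s₂)
    rwa [show u * (s₁ * s₂) = s₁ * s₂ * u by ring] at h2

section

variable [FiniteDimensional K E] {C : Chow K E F q d} (hC : IsChow C) (hq : q ≠ 0) {n : ℕ}
  (hn : n ≤ d) {s : ℕ}
  (h₁ : ∀ x ∈ LinearMap.range (C.cl n), (F ^ s) x = q ^ (n * s) • x)
  (h₂ : ∀ x ∈ LinearMap.range (C.cl (d - n)), (F ^ s) x = q ^ ((d - n) * s) • x)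

include hC hq hn

omit [FiniteDimensional K E] in
include h₂ in
theorem pair_left (b : E) : ∀ y ∈ LinearMap.range (C.cl (d - n)),
    C.B ((F ^ s - q ^ (n * s) • LinearMap.id : E →ₗ[K] E) b) y = 0 := by
  intro y hy
  have hcc : q ^ (d * s) = q ^ (n * s) * q ^ ((d - n) * s) := by
    rw [← pow_add, ← add_mul, Nat.add_sub_cancel' hn]
  have h1 := equivariant_pow hC s b y
  rw [h₂ y hy, map_smul, smul_eq_mul, hcc] at h1
  have h2 : C.B ((F ^ s) b) y = q ^ (n * s) * C.B b y := by
    apply mul_left_cancel₀ (pow_ne_zero ((d - n) * s) hq)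
    rw [h1]; ring
  rw [LinearMap.sub_apply, map_sub, LinearMap.sub_apply, h2, LinearMap.smul_apply,
    LinearMap.id_apply, map_smul, LinearMap.smul_apply, smul_eq_mul, sub_self]

omit [FiniteDimensional K E] in
include h₁ in
theorem pair_right (b : E) : ∀ x ∈ LinearMap.range (C.cl n),
    C.B x ((F ^ s - q ^ ((d - n) * s) • LinearMap.id : E →ₗ[K] E) b) = 0 := by
  intro x hx
  have hcc : q ^ (d * s) = q ^ (n * s) * q ^ ((d - n) * s) := by
    rw [← pow_add, ← add_mul, Nat.add_sub_cancel' hn]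
  have h1 := equivariant_pow hC s x b
  rw [h₁ x hx, map_smul, LinearMap.smul_apply, smul_eq_mul, hcc] at h1
  have h2 : C.B x ((F ^ s) b) = q ^ ((d - n) * s) * C.B x b := by
    apply mul_left_cancel₀ (pow_ne_zero (n * s) hq)
    rw [h1]; ring
  rw [LinearMap.sub_apply, map_sub, h2, LinearMap.smul_apply, LinearMap.id_apply, map_smul,
    smul_eq_mul, sub_self]

end

/-- The strong Tate conjecture in codimensions `n` and `d - n`. -/
def StrongTateAt (C : Chow K E F q d) (n : ℕ) : Prop :=
  ∀ k, k = n ∨ k = d - n → ∀ s, 0 < s → ∀ x, IsGen (F ^ s) (q ^ (k * s)) x →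
    x ∈ LinearMap.range (C.cl k)

/-- Poincaré duality is perfect on the algebraic classes. -/
theorem nondeg [FiniteDimensional K E] {C : Chow K E F q d} (hC : IsChow C) (hq : q ≠ 0) {n : ℕ}
    (hn : n ≤ d) (hT : StrongTateAt C n) :
    (∀ x ∈ LinearMap.range (C.cl n),
      (∀ y ∈ LinearMap.range (C.cl (d - n)), C.B x y = 0) → x = 0) ∧
    (∀ y ∈ LinearMap.range (C.cl (d - n)),
      (∀ x ∈ LinearMap.range (C.cl n), C.B x y = 0) → y = 0) := by
  obtain ⟨s, hs0, h₁, h₂, -⟩ := exists_level hC n (d - n) (LinearMap.id : E →ₗ[K] E) 0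
    ⟨1, one_pos, by simp⟩
  constructor
  · intro x hx h
    refine hC.left x fun y => ?_
    obtain ⟨a, ha, b, rfl⟩ := exists_decomp (F ^ s) (q ^ ((d - n) * s)) _
      (hT (d - n) (Or.inr rfl) s hs0) y
    rw [map_add, h a ha, pair_right hC hq hn h₁ b x hx, add_zero]
  · intro y hy h
    refine hC.right y fun x => ?_
    obtain ⟨a, ha, b, rfl⟩ := exists_decomp (F ^ s) (q ^ (n * s)) _
      (hT n (Or.inl rfl) s hs0) x
    rw [map_add, LinearMap.add_apply, h a ha, pair_left hC hq hn h₂ b y hy, add_zero]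

/-- **The main step**: a module over the ring of correspondences on which Frobenius acts by `q ^ n`
and on which the products of cycles act as zero vanishes. -/
theorem core_module [FiniteDimensional K E] {C : Chow K E F q d} (hC : IsChow C) (hq : q ≠ 0)
    {n : ℕ} (hn : n ≤ d) (hT : StrongTateAt C n) {V : Type} [AddCommGroup V] [Module K V]
    (ρ : C.R →ₐ[K] Module.End K V) (α : V)
    (hα0 : ∃ s : ℕ, 0 < s ∧ ρ (C.fr ^ s) α = q ^ (n * s) • α)
    (h0 : ∀ z, C.cl n z ≠ 0 → ∀ z', ρ (C.rk n z z') α = 0) : α = 0 := by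
  classical
  by_contra hα
  obtain ⟨s, hs0, hGA, hGA', hαs⟩ := exists_level hC n (d - n) (ρ C.fr) α (by
    obtain ⟨s, hs, h⟩ := hα0
    exact ⟨s, hs, by rw [← map_pow]; exact h⟩)
  obtain ⟨hnd1, hnd2⟩ := nondeg hC hq hn hT
  have hB1 := pair_left hC hq hn hGA'
  set A := LinearMap.range (C.cl n) with hA
  set A' := LinearMap.range (C.cl (d - n)) with hA'
  set G : E →ₗ[K] E := F ^ s with hG
  set c : K := q ^ (n * s) with hc
  have hgen : ∀ x, IsGen G c x → x ∈ A := fun x hx => hT n (Or.inl rfl) s hs0 x hx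
  -- dual bases
  let β := Module.finBasis K A
  have hdual : ∀ i, ∃ z' : C.M (d - n), ∀ x (hx : x ∈ A), C.B x (C.cl (d - n) z') =
      β.coord i ⟨x, hx⟩ := by
    intro i
    obtain ⟨y, ⟨z', rfl⟩, hy⟩ := exists_dual C.B A A' hnd1 hnd2 (β.coord i)
    exact ⟨z', hy⟩
  choose z' hz' using hdual
  have hz : ∀ i, ∃ z : C.M n, C.cl n z = β i := fun i => (β i).2
  choose z hz using hz
  set π : C.R := ∑ i, C.rk n (z i) (z' i) with hπ
  have hπx : ∀ a (ha : a ∈ A) (b : E), C.real π (a + (G - c • LinearMap.id : E →ₗ[K] E) b) = a := by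
    intro a ha b
    rw [hπ, map_sum, LinearMap.sum_apply]
    have h1 : ∀ i, C.real (C.rk n (z i) (z' i)) (a + (G - c • LinearMap.id : E →ₗ[K] E) b) =
        β.repr ⟨a, ha⟩ i • ((β i : A) : E) := by
      intro i
      rw [hC.real_rk n hn, map_add, LinearMap.add_apply, hz' i a ha, hz i,
        hB1 b _ ⟨z' i, rfl⟩, add_zero]
      rfl
    rw [Finset.sum_congr rfl fun i _ => h1 i]
    have h2 : ((∑ i, β.repr ⟨a, ha⟩ i • β i : A) : E) = a := by rw [β.sum_repr]
    rw [Submodule.coe_sum] at h2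
    exact h2
  -- the polynomial
  obtain ⟨P, hP1, hP2⟩ := Polynomial.exists_eq_pow_rootMultiplicity_mul_and_not_dvd (minpoly K G)
    (minpoly.ne_zero (Algebra.IsIntegral.isIntegral G)) c
  have hPc : P.eval c ≠ 0 := fun h => hP2 (Polynomial.dvd_iff_isRoot.2 h)
  have hX : aeval G (X - Polynomial.C c) = (G - c • LinearMap.id : E →ₗ[K] E) := by
    rw [map_sub, aeval_X, aeval_C]
    rfl
  have hkill : ∀ b, aeval G P ((G - c • LinearMap.id : E →ₗ[K] E) b) = 0 := by
    intro b
    have hcomm : ∀ v, aeval G P ((G - c • LinearMap.id : E →ₗ[K] E) v) =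
        (G - c • LinearMap.id : E →ₗ[K] E) (aeval G P v) := by
      intro v
      have h1 : aeval G P * aeval G (X - Polynomial.C c) =
          aeval G (X - Polynomial.C c) * aeval G P := by
        rw [← map_mul, ← map_mul, mul_comm]
      rw [hX] at h1
      exact congrArg (fun T : Module.End K E => T v) h1
    have h2 : ∀ v, ((G - c • LinearMap.id : E →ₗ[K] E) ^ (minpoly K G).rootMultiplicity c)
        (aeval G P v) = 0 := by
      intro v
      have h3 : aeval G ((X - Polynomial.C c) ^ (minpoly K G).rootMultiplicity c * P) = 0 := by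
        rw [← hP1]; exact minpoly.aeval K G
      rw [map_mul, map_pow, hX] at h3
      exact congrArg (fun T : Module.End K E => T v) h3
    have h3 : aeval G P b ∈ A := hgen _ ⟨_, h2 b⟩
    rw [hcomm, LinearMap.sub_apply, LinearMap.smul_apply, LinearMap.id_apply, hGA _ h3, sub_self]
  -- the nilpotent correspondence
  set r : C.R := aeval (C.fr ^ s) P * (1 - π) with hr
  have hreal : C.real r = 0 := by
    refine LinearMap.ext fun x => ?_
    obtain ⟨a, ha, b, rfl⟩ := exists_decomp G c A hgen x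
    rw [hr, map_mul, Module.End.mul_apply, map_sub, map_one, LinearMap.sub_apply, hπx a ha b,
      Module.End.one_apply, add_sub_cancel_left, ← Polynomial.aeval_algHom_apply, map_pow,
      hC.real_fr]
    exact hkill b
  obtain ⟨N, hN⟩ := hC.nilpotent r hreal
  have hact1 : ρ (1 - π) α = α := by
    rw [map_sub, map_one, LinearMap.sub_apply, Module.End.one_apply, hπ, map_sum,
      LinearMap.sum_apply]
    rw [Finset.sum_eq_zero fun i _ => h0 (z i) (by
        rw [hz i]; exact fun h => β.ne_zero i (Subtype.ext h)) (z' i), sub_zero]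
  have hact2 : ρ (aeval (C.fr ^ s) P) α = P.eval c • α := by
    rw [← Polynomial.aeval_algHom_apply]
    refine Module.End.aeval_apply_of_hasEigenvector ⟨Module.End.mem_eigenspace_iff.2 ?_, hα⟩
    rw [map_pow]
    exact hαs
  have hact : ρ r α = P.eval c • α := by
    rw [hr, map_mul, Module.End.mul_apply, hact1, hact2]
  have hactN : ρ (r ^ N) α = (P.eval c) ^ N • α := by
    rw [map_pow]; exact pow_eigen hact N
  rw [hN, map_zero, LinearMap.zero_apply] at hactN
  rcases smul_eq_zero.1 hactN.symm with h | h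
  · exact pow_ne_zero _ hPc h
  · exact hα h

theorem core [FiniteDimensional K E] {C : Chow K E F q d} (hC : IsChow C) (hq : q ≠ 0)
    {n : ℕ} (hn : n ≤ d) (hT : StrongTateAt C n) (α : C.M n)
    (h0 : ∀ z, C.cl n z ≠ 0 → ∀ z', C.deg n α z' = 0) : α = 0 :=
  core_module hC hq hn hT (C.act n) α (hC.act_fr n α) fun z hz z' => by
    rw [hC.act_rk n hn, h0 z hz z', zero_smul]

/-- **Parshin's conjecture**: a module over the ring of correspondences on which Frobenius acts by
`q ^ n` and on which the products of cycles act as zero, such as `CH ^ n (P, j)` for `j > 0`,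
vanishes. -/
theorem parshin [FiniteDimensional K E] {C : Chow K E F q d} (hC : IsChow C) (hq : q ≠ 0)
    {n : ℕ} (hn : n ≤ d) (hT : StrongTateAt C n) {V : Type} [AddCommGroup V] [Module K V]
    (ρ : C.R →ₐ[K] Module.End K V)
    (hρ : ∀ α, ∃ s : ℕ, 0 < s ∧ ρ (C.fr ^ s) α = q ^ (n * s) • α)
    (h0 : ∀ z z', ρ (C.rk n z z') = 0) : Subsingleton V :=
  ⟨fun α β => by
    rw [core_module hC hq hn hT ρ α (hρ α) fun z _ z' => by rw [h0, LinearMap.zero_apply],
      core_module hC hq hn hT ρ β (hρ β) fun z _ z' => by rw [h0, LinearMap.zero_apply]]⟩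

/-- A module over the ring of correspondences on which Frobenius acts by `q ^ n` vanishes if `q ^ n`
is not an eigenvalue of Frobenius on the cohomology, over any finite extension. -/
theorem parshin_large [FiniteDimensional K E] {C : Chow K E F q d} (hC : IsChow C) {n : ℕ}
    (h : ∀ s, 0 < s → ∀ x, (F ^ s) x = q ^ (n * s) • x → x = 0) {V : Type} [AddCommGroup V]
    [Module K V] (ρ : C.R →ₐ[K] Module.End K V)
    (hρ : ∀ α, ∃ s : ℕ, 0 < s ∧ ρ (C.fr ^ s) α = q ^ (n * s) • α) : Subsingleton V := by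
  have key : ∀ α : V, α = 0 := by
    intro α
    by_contra hα
    obtain ⟨s, hs, hαs⟩ := hρ α
    have hc : (minpoly K (F ^ s)).eval (q ^ (n * s)) ≠ 0 := by
      intro h1
      have h2 := Module.End.hasEigenvalue_iff_isRoot.2 (show (minpoly K (F ^ s)).IsRoot _ from h1)
      obtain ⟨x, hx⟩ := h2.exists_hasEigenvector
      exact hx.2 (h s hs x (Module.End.mem_eigenspace_iff.1 hx.1))
    have hreal : C.real (aeval (C.fr ^ s) (minpoly K (F ^ s))) = 0 := by
      rw [← Polynomial.aeval_algHom_apply, map_pow, hC.real_fr, minpoly.aeval]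
    obtain ⟨N, hN⟩ := hC.nilpotent _ hreal
    have hact : ρ (aeval (C.fr ^ s) (minpoly K (F ^ s))) α =
        (minpoly K (F ^ s)).eval (q ^ (n * s)) • α := by
      rw [← Polynomial.aeval_algHom_apply]
      exact Module.End.aeval_apply_of_hasEigenvector ⟨Module.End.mem_eigenspace_iff.2 hαs, hα⟩
    have hactN : ρ ((aeval (C.fr ^ s) (minpoly K (F ^ s))) ^ N) α =
        ((minpoly K (F ^ s)).eval (q ^ (n * s))) ^ N • α := by
      rw [map_pow]; exact pow_eigen hact N
    rw [hN, map_zero, LinearMap.zero_apply] at hactN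
    rcases smul_eq_zero.1 hactN.symm with h | h
    · exact pow_ne_zero _ hc h
    · exact hα h
  exact ⟨fun a b => by rw [key a, key b]⟩

/-- **Numerically trivial cycles are rationally trivial** if the strong Tate conjecture holds in
the codimensions `n` and `d - n` (Kahn). -/
theorem num_trivial [FiniteDimensional K E] (C : Chow K E F q d) (hC : IsChow C) (hq : q ≠ 0)
    {n : ℕ} (hn : n ≤ d)
    (hT : ∀ k, k = n ∨ k = d - n → ∀ s, 0 < s → ∀ x, IsGen (F ^ s) (q ^ (k * s)) x →
      x ∈ LinearMap.range (C.cl k)) (α : C.M n) (h0 : ∀ z, C.deg n α z = 0) : α = 0 :=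
  core hC hq hn hT α fun _ _ => h0

/-- Intersection numbers are given by the cycle classes. -/
theorem deg_eq {C : Chow K E F q d} (hC : IsChow C) {n : ℕ} (hn : n ≤ d) (α : C.M n)
    (z' : C.M (d - n)) {z : C.M n} (hz : C.cl n z ≠ 0) :
    C.deg n α z' = C.B (C.cl n α) (C.cl (d - n) z') := by
  have h1 := hC.real_cl n (C.rk n z z') α
  rw [hC.real_rk n hn, hC.act_rk n hn, map_smul] at h1
  have h2 : (C.B (C.cl n α) (C.cl (d - n) z') - C.deg n α z') • C.cl n z = 0 := by
    rw [sub_smul, h1, sub_self]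
  rcases smul_eq_zero.1 h2 with h | h
  · exact (sub_eq_zero.1 h).symm
  · exact absurd h hz

/-- Homologically trivial cycles are rationally trivial. -/
theorem cl_injective [FiniteDimensional K E] {C : Chow K E F q d} (hC : IsChow C) (hq : q ≠ 0)
    {n : ℕ} (hn : n ≤ d) (hT : StrongTateAt C n) : Function.Injective (C.cl n) := by
  rw [injective_iff_map_eq_zero]
  intro α hα
  refine core hC hq hn hT α fun z hz z' => ?_
  rw [deg_eq hC hn α z' hz, hα, map_zero, LinearMap.zero_apply]

/-- **The intersection pairing is perfect.** -/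
theorem perfect [FiniteDimensional K E] {C : Chow K E F q d} (hC : IsChow C) (hq : q ≠ 0)
    {n : ℕ} (hn : n ≤ d) (hT : StrongTateAt C n) :
    FiniteDimensional K (C.M n) ∧ FiniteDimensional K (C.M (d - n)) ∧
      Function.Bijective (C.deg n) := by
  have hT' : StrongTateAt C (d - n) := by
    rintro k (hk | hk)
    · exact hT k (Or.inr hk)
    · rw [Nat.sub_sub_self hn] at hk
      exact hT k (Or.inl hk)
  have i1 := cl_injective hC hq hn hT
  have i2 := cl_injective hC hq (Nat.sub_le d n) hT'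
  have f1 : FiniteDimensional K (C.M n) := FiniteDimensional.of_injective (C.cl n) i1
  have f2 : FiniteDimensional K (C.M (d - n)) := FiniteDimensional.of_injective (C.cl (d - n)) i2
  have hinj : Function.Injective (C.deg n) := by
    rw [injective_iff_map_eq_zero]
    intro α hα
    exact num_trivial C hC hq hn hT α fun z => by rw [hα, LinearMap.zero_apply]
  refine ⟨f1, f2, hinj, ?_⟩
  obtain ⟨h1, h2⟩ := nondeg hC hq hn hT
  have e1 : finrank K (C.M (d - n)) ≤ finrank K (C.M n) := by
    let T : C.M (d - n) →ₗ[K] Dual K (LinearMap.range (C.cl n)) :=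
      (C.B.flip.domRestrict₁₂ ⊤ (LinearMap.range (C.cl n))) ∘ₗ
        (LinearMap.codRestrict ⊤ (C.cl (d - n)) fun _ => Submodule.mem_top)
    have hT0 : Function.Injective T := by
      rw [injective_iff_map_eq_zero]
      intro z hz
      apply i2
      rw [map_zero]
      exact h2 _ ⟨z, rfl⟩ fun x hx => LinearMap.congr_fun hz ⟨x, hx⟩
    have e := LinearMap.finrank_le_finrank_of_injective hT0
    rw [Subspace.dual_finrank_eq, LinearMap.finrank_range_of_inj i1] at e
    exact e
  have e2 : finrank K (C.M n) ≤ finrank K (C.M (d - n) →ₗ[K] K) :=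
    LinearMap.finrank_le_finrank_of_injective hinj
  have e3 : finrank K (C.M (d - n) →ₗ[K] K) = finrank K (C.M (d - n)) :=
    Subspace.dual_finrank_eq
  exact (LinearMap.injective_iff_surjective_of_finrank_eq_finrank (by omega)).1 hinj

end Pool.Agent.V8H94.CW
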